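import Pool.Agent.Helper66_D2.Stmts
import Pool.Agent.Helper66_D2.Tool
import Pool.Agent.Helper13_D1.C3D
import Pool.Agent.Helper94_D1.D1r

/-!
# Squad PP, part D2, module C3D: the correspondence is equivariant
-/

open scoped BigOperators

noncomputable section

namespace Pool.Agent.PP.CD2.H65

open Pool.Agent.PP Pool.Agent.Helper51_AWC Pool.Agent.Helper79_WRA

section gen

variable {F : Type} [Field F]

theorem key_conj {G : Type} [Group G] {y g : G} (hg : g ∈ NY y) {x : G} (hx : x ∈ CY y) :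
    g * x * g⁻¹ ∈ CY y := by
  have hx' : x ∈ Subgroup.centralizer (Subgroup.zpowers y : Set G) := hx
  change g * x * g⁻¹ ∈ Subgroup.centralizer (Subgroup.zpowers y : Set G)
  rw [Subgroup.mem_centralizer_iff] at hx' ⊢
  intro z hz
  have h1 : g⁻¹ * z * g ∈ Subgroup.zpowers y := by
    have := (Subgroup.mem_normalizer_iff.1 (inv_mem hg) z).1 hz
    rwa [inv_inv] at this
  have h2 := hx' _ h1
  calc z * (g * x * g⁻¹) = g * ((g⁻¹ * z * g) * x) * g⁻¹ := by group
    _ = g * (x * (g⁻¹ * z * g)) * g⁻¹ := by rw [h2]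
    _ = g * x * g⁻¹ * z := by group

theorem sp_conj {G : Type} [Group G] {N : Subgroup G} [N.Normal] {y x : G} (hx : x ∈ NY y)
    {u : G → F} (hu : SpF (N ⊓ CY y) u) : SpF (N ⊓ CY y) (fun g => u (x⁻¹ * g * x)) := by
  intro g hg
  apply hu
  intro h
  apply hg
  have e : x * (x⁻¹ * g * x) * x⁻¹ = g := by group
  constructor
  · rw [← e]
    exact Subgroup.Normal.conj_mem inferInstance _ h.1 x
  · rw [← e]
    exact key_conj hx h.2

/-- composition with an automorphism -/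
theorem evV_comp {N : Type} [Group N] [Finite N] {n : ℕ} (σ : N →* Matrix (Fin n) (Fin n) F)
    (e : N ≃* N) (a : N → F) :
    evV (mrep (σ.comp e.toMonoidHom)) a = evV (mrep σ) (fun l => a (e.symm l)) := by
  have := Fintype.ofFinite N
  apply LinearMap.ext
  intro v
  rw [D66.evV_apply, D66.evV_apply]
  refine Fintype.sum_equiv e.toEquiv _ _ fun g => ?_
  change a g • mrep σ (e g) v = a (e.symm (e g)) • mrep σ (e g) v
  rw [e.symm_apply_apply]

end gen

/-- C3D -/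
theorem c3d : C3dStmt := by
  intro ℓ _ F _ hF G _ _ n N P _ y₁ b w hD φ θ hc x
  obtain ⟨k, σ, m, κ, π, h1, h2, h3, h4, h5⟩ := hc
  obtain ⟨e, he⟩ : ∃ e : N ≃* N, e = (MulAut.conjNormal (x : G) : N ≃* N) := ⟨_, rfl⟩
  have hesymm : ∀ l : N, ((e.symm l : N) : G) = (x : G)⁻¹ * (l : G) * (x : G) := by
    intro l
    rw [he]
    exact MulAut.conjNormal_symm_apply (x : G) l
  obtain ⟨u, hu1, hu2, hu3⟩ := hD.eqv (x : G) x.2
  obtain ⟨u', hu1', hu2', hu3'⟩ := hD.eqv (x : G)⁻¹ (inv_mem x.2)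
  have hsw : SpF (N ⊓ CY y₁) w := H66.ums_sw hD.ums
  have hcw : CmF (N ⊓ CY y₁) w := H66.ums_cw hD.ums
  obtain ⟨u2, hu2d⟩ : ∃ u2 : G → F, u2 = fun g => u' ((x : G)⁻¹ * g * (x : G)) := ⟨_, rfl⟩
  have hu2s : SpF (N ⊓ CY y₁) u2 := by
    rw [hu2d]
    exact sp_conj x.2 hu1'
  have hww : w = mulF (mulF w u) u2 := by
    have h6 := H66.conj_mulF (x : G) w u'
    rw [← hu3', hu3, ← hu2d] at h6
    rw [← h6]
    funext g
    congr 1
    group
  have hmono : N ⊓ CY y₁ ≤ N := inf_le_left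
  obtain ⟨W, hW⟩ : ∃ W, W = evV (mrep σ) (fun t : N => w t) := ⟨_, rfl⟩
  obtain ⟨U, hU⟩ : ∃ U, U = evV (mrep σ) (fun t : N => u t) := ⟨_, rfl⟩
  obtain ⟨U2, hU2⟩ : ∃ U2, U2 = evV (mrep σ) (fun t : N => u2 t) := ⟨_, rfl⟩
  have hr : ∀ a c : G → F, SpF (N ⊓ CY y₁) a → SpF (N ⊓ CY y₁) c →
      evV (mrep σ) (fun t : N => mulF a c t) =
        evV (mrep σ) (fun t : N => a t) * evV (mrep σ) (fun t : N => c t) := by
    intro a c ha hc
    rw [← D1H94.mulF_restr (ha.mono hmono) (hc.mono hmono), H66.evV_mulF]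
  have hWU : evV (mrep σ) (fun t : N => mulF w u t) = W * U := by
    rw [hr w u hsw hu1, hW, hU]
  have hW1 : W = (W * U) * U2 := by
    conv_lhs => rw [hW, hww]
    rw [hr _ _ (hsw.mul hu1) hu2s, hWU, hU2]
  have hcomm1 : Commute W U := by
    change W * U = U * W
    rw [← hWU, H66.cm_comm hcw hu1, hr u w hu1 hsw, hW, hU]
  have hcomm2 : Commute (W * U) U2 := by
    change (W * U) * U2 = U2 * (W * U)
    have h7 := H66.cm_comm (hcw.mul hu2) hu2s
    have h8 := hr _ _ (hsw.mul hu1) hu2s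
    rw [h7, hr _ _ hu2s (hsw.mul hu1), hWU, ← hU2] at h8
    exact h8.symm
  have hW' : evV (mrep (σ.comp e.toMonoidHom)) (fun t : N => w t) = W * U := by
    rw [evV_comp, ← hWU, ← hu3]
    congr 1
    funext l
    change w ((e.symm l : N) : G) = _
    rw [hesymm]
  have hb' : evV (mrep (σ.comp e.toMonoidHom)) (fun t : N => bY y₁ b t) =
      evV (mrep σ) (fun t : N => bY y₁ b t) := by
    rw [evV_comp]
    congr 1
    funext l
    change bY y₁ b ((e.symm l : N) : G) = _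
    rw [hesymm]
    have hcl : CmF (⊤ : Subgroup G) b := H66.cmF_of_cl hD.idem.1 _
    have h6 := H66.bY_cm hcl (x : G)⁻¹ (⟨Subgroup.mem_top _, (NY y₁).inv_mem x.2⟩ : (x : G)⁻¹ ∈ (⊤ : Subgroup G) ⊓ NY y₁) (l : G)
    rw [inv_inv] at h6
    exact h6
  have hfix : ∀ v : Fin k → F,
      v ∈ fixW (mrep (σ.comp e.toMonoidHom)) (fun t : N => bY y₁ b t) (fun t : N => w t) ↔
        v ∈ fixW (mrep σ) (fun t : N => bY y₁ b t) (fun t : N => w t) := by
    intro v
    change (_ ∧ _) ↔ (_ ∧ _)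
    rw [hb', hW', ← hW]
    refine and_congr_right fun _ => ⟨fun h => ?_, fun h => ?_⟩
    · rw [hW1, hcomm2.eq, Module.End.mul_apply, h, map_zero]
    · rw [hcomm1.eq, Module.End.mul_apply, h, map_zero]
  have hrng : rngW (mrep (σ.comp e.toMonoidHom)) (fun t : N => w t) (ℓ ^ (n + 1) - 1) =
      rngW (mrep σ) (fun t : N => w t) (ℓ ^ (n + 1) - 1) := by
    unfold rngW
    rw [hW', ← hW]
    apply le_antisymm
    · rw [hcomm1.mul_pow]
      exact LinearMap.range_comp_le_range _ _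
    · conv_lhs => rw [hW1, hcomm2.mul_pow]
      exact LinearMap.range_comp_le_range _ _
  refine ⟨k, σ.comp e.toMonoidHom, m,
    κ.comp (MulAut.conjNormal x : N.subgroupOf (NY y₁) ≃* N.subgroupOf (NY y₁)).toMonoidHom, π,
      D1.H13.irr_comp σ _ h1, ?_, D1.H13.irr_comp κ _ h3, ?_,
      ⟨fun a v hv => ?_, fun v hv => ?_, fun w' => ?_⟩⟩
  · funext l
    rw [← h2, he]
    rfl
  · funext l
    rw [← h4]
    rfl
  · have h6 := h5.int (MulAut.conjNormal x a) v ((hfix v).1 hv)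
    have h8 : (e (jN N (NY y₁) a) : N) = jN N (NY y₁) (MulAut.conjNormal x a) := by
      rw [he]
      apply Subtype.ext
      simp only [MulAut.conjNormal_apply, jN, MonoidHom.coe_mk, OneHom.coe_mk, Subgroup.coe_mul,
        InvMemClass.coe_inv]
    show π (mrep σ (e (jN N (NY y₁) a)) v) = _
    rw [h8]
    exact h6
  · rw [hrng]
    exact h5.ker v ((hfix v).1 hv)
  · obtain ⟨v, hv, h⟩ := h5.sur w'
    exact ⟨v, (hfix v).2 hv, h⟩

end Pool.Agent.PP.CD2.H65
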