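import Pool.Agent.Helper66_D2.Stmts
import Pool.Agent.Helper6_D1.Ced

/-!
# Squad PP, part D2, module CED: the count for a central idempotent below `b`
-/

open scoped BigOperators

noncomputable section

namespace Pool.Agent.PP.CD2.H65

open Pool.Agent.PP Pool.Agent.Helper51_AWC Pool.Agent.Helper79_WRA

section gen

variable {F : Type} [Field F] {G : Type} [Group G]

/-- the relation between the characters of `G` and of `N_G(P₁)` -/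
def RelW (y₁ : G) (b₁ w : G → F) (r : ℕ) (f : G → F) (θ : NY y₁ → F) : Prop :=
  ∃ (k : ℕ) (σ : G →* Matrix (Fin k) (Fin k) F) (m : ℕ)
    (κ : NY y₁ →* Matrix (Fin m) (Fin m) F)
    (π : (Fin k → F) →ₗ[F] (Fin m → F)), IsIrr σ ∧ tr σ = f ∧ IsIrr κ ∧ tr κ = θ ∧
      HW (NY y₁).subtype κ (mrep σ) π (fixW (mrep σ) b₁ w) (rngW (mrep σ) w r)

end gen

/-- CED -/
theorem ced (hcbd : CbdStmt) (hird : IrdStmt) (hind : IndStmt) (hebd : EbdStmt) : CedStmt := by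
  intro ℓ hℓ F _ hF G _ _ n N P y₁ b w hD e he heb
  have hcard := hcbd ℓ F hF G n N P y₁ b w hD
  have hPp : IsPGroup ℓ (Subgroup.zpowers y₁) :=
    IsPGroup.of_card (n := 1) (by rw [Nat.card_zpowers, hD.ord, pow_one])
  have hbrm := H20.brm ℓ F hF G (Subgroup.zpowers y₁) (NY y₁) hPp (D1H6.cent_le _) le_rfl
  have hbe : IsIdem (fun t : NY y₁ => bY y₁ e t) := hbrm.2.2 e he
  have hbb : IsIdem (fun t : NY y₁ => bY y₁ b t) := hbrm.2.2 b hD.idem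
  have hrange : (NY y₁).subtype.range = NY y₁ := Subgroup.range_subtype _
  have hinj : Function.Injective (NY y₁).subtype := Subgroup.subtype_injective _
  -- related characters
  have hrel : ∀ (a : G → F), IsIdem a → IsCl (fun t : NY y₁ => bY y₁ a t) →
      ∀ f θ, RelW y₁ (bY y₁ b) w (ℓ ^ (n + 1) - 1) f θ →
      (actF a f = f ↔ actF (fun t : NY y₁ => bY y₁ a t) θ = θ) := by
    rintro a ha hba f θ ⟨k, σ, m, κ, π, hσ, rfl, hκ, rfl, hV⟩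
    obtain ⟨c, h1, -, -⟩ := H20.eig F G k σ hσ a ha.1
    have h2 := hebd ℓ F hF G n N P y₁ b w hD _ _ hinj hrange k σ m κ π hκ hV a c ha.1 h1
    have h2' : ev κ (fun t : NY y₁ => bY y₁ a t) = Matrix.scalar (Fin m) c := h2
    rw [CY66.act_iff H20.eig hσ ha.1 h1, CY66.act_iff H20.eig hκ hba h2']
  have hA : ∀ f : G → F, f ∈ {θ : G → F | θ ∈ IBr F G ∧ actF b θ = θ} →
      ∃ θ : NY y₁ → F, θ ∈ IBr F (NY y₁) ∧ RelW y₁ (bY y₁ b) w (ℓ ^ (n + 1) - 1) f θ := by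
    rintro f ⟨⟨k, σ, hσ, rfl⟩, h2⟩
    obtain ⟨m, κ, π, hκ, hV⟩ := hird ℓ F hF G n N P y₁ b w hD _ _ hrange k σ hσ
      ((D1H6.act_ev hσ hD.idem.1).1 h2)
    exact ⟨tr κ, ⟨m, κ, hκ, rfl⟩, k, σ, m, κ, π, hσ, rfl, hκ, rfl, hV⟩
  choose! Θ hΘ hΘR using hA
  have hinjΘ : Set.InjOn Θ {θ : G → F | θ ∈ IBr F G ∧ actF b θ = θ} := by
    intro f hf f' hf' h
    obtain ⟨k, σ, m, κ, π, hσ, h1, hκ, h2, hV⟩ := hΘR f hf
    obtain ⟨k', σ', m', κ', π', hσ', h1', hκ', h2', hV'⟩ := hΘR f' hf'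
    have h3 := (D1H6.act_ev hσ hD.idem.1).1 (by rw [h1]; exact hf.2)
    have h3' := (D1H6.act_ev hσ' hD.idem.1).1 (by rw [h1']; exact hf'.2)
    rw [← h1, ← h1']
    exact hind ℓ F hF G n N P y₁ b w hD _ _ hrange k k' σ σ' hσ hσ' h3 h3' m m' κ κ' π π' hκ hκ'
      (h2.trans (h.trans h2'.symm)) hV hV'
  have himg : Θ '' {θ : G → F | θ ∈ IBr F G ∧ actF b θ = θ} =
      {θ : NY y₁ → F | θ ∈ IBr F (NY y₁) ∧
        actF (fun t : NY y₁ => bY y₁ b t) θ = θ} := by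
    refine Set.eq_of_subset_of_ncard_le ?_ ?_ ?_
    · rintro _ ⟨f, hf, rfl⟩
      exact ⟨hΘ f hf, (hrel b hD.idem hbb.1 _ _ (hΘR f hf)).1 hf.2⟩
    · rw [hinjΘ.ncard_image, hcard]
    · exact (H20.ibf ℓ F hF _).1.subset fun θ hθ => hθ.1
  -- the characters under `e` are under `b`
  have hsub : ∀ f ∈ {θ : G → F | θ ∈ IBr F G ∧ actF e θ = θ},
      f ∈ {θ : G → F | θ ∈ IBr F G ∧ actF b θ = θ} := by
    rintro f ⟨⟨k, σ, hσ, rfl⟩, h2⟩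
    refine ⟨⟨k, σ, hσ, rfl⟩, (D1H6.act_ev hσ hD.idem.1).2 ?_⟩
    have h3 := (D1H6.act_ev hσ he.1).1 h2
    have h4 := H20.ev_mulF σ e b
    rw [heb, h3, one_mul] at h4
    exact h4.symm
  have hsub' : ∀ θ ∈ {θ : NY y₁ → F | θ ∈ IBr F (NY y₁) ∧
        actF (fun t : NY y₁ => bY y₁ e t) θ = θ},
      θ ∈ {θ : NY y₁ → F | θ ∈ IBr F (NY y₁) ∧
        actF (fun t : NY y₁ => bY y₁ b t) θ = θ} := by
    rintro θ ⟨⟨m, κ, hκ, rfl⟩, h2⟩
    refine ⟨⟨m, κ, hκ, rfl⟩, (D1H6.act_ev hκ hbb.1).2 ?_⟩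
    have h3 := (D1H6.act_ev hκ hbe.1).1 h2
    have h4 := H20.ev_mulF κ (fun t : NY y₁ => br (Subgroup.zpowers y₁) e t)
      (fun t : NY y₁ => br (Subgroup.zpowers y₁) b t)
    rw [← hbrm.2.1 e b, ← hbrm.1 e b he.1 hD.idem.1, heb] at h4
    have h5 : ev κ (fun t : NY y₁ => br (Subgroup.zpowers y₁) e t) = 1 := h3
    rw [h5, one_mul] at h4
    exact h4.symm
  refine Set.ncard_congr (fun f _ => Θ f) (fun f hf => ?_) (fun f f' hf hf' h => ?_)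
    fun θ hθ => ?_
  · exact ⟨hΘ f (hsub f hf), (hrel e he hbe.1 _ _ (hΘR f (hsub f hf))).1 hf.2⟩
  · exact hinjΘ (hsub f hf) (hsub f' hf') h
  · have h1 := hsub' θ hθ
    rw [← himg] at h1
    obtain ⟨f, hf, rfl⟩ := h1
    exact ⟨f, ⟨hf.1, (hrel e he hbe.1 _ _ (hΘR f hf)).2 hθ.2⟩, rfl⟩

end Pool.Agent.PP.CD2.H65
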